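import Pool.Agent.Helper98_CC.Stmts
import Pool.Agent.Helper65_CC.Ind
import Pool.Agent.Helper13_WRA.Form
import Pool.Agent.Helper13_WRA.Label
import Pool.Agent.Helper33_WRA.Ext
import Pool.Agent.Helper33_WRA.Formi
import Pool.Agent.Helper44_WRA.Kill
import Pool.Agent.Helper69_WRA.Alg
import Pool.Agent.Helper83_WRA.Pos
import Pool.Agent.Helper51_AWC.Abelian

/-!
CC, module GOODA: the block condition for the chains of the base group.
-/

open scoped BigOperators

noncomputable section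

namespace Pool.Agent.Helper33_CC

open Pool.Agent.Helper51_AWC Pool.Agent.Helper79_WRA Pool.Agent.Helper98_CC

section field

variable {M : Ideal (integralClosure ℤ ℂ)} [M.IsMaximal]

omit [M.IsMaximal] in
theorem natCast_eq_zero {ℓ : ℕ} (hℓ : (ℓ : integralClosure ℤ ℂ) ∈ M) : ((ℓ : ℕ) : FF M) = 0 := by
  have h : ((ℓ : ℕ) : FF M) = Ideal.Quotient.mk M (ℓ : integralClosure ℤ ℂ) := by
    rw [map_natCast]
  rw [h]
  exact Ideal.Quotient.eq_zero_iff_mem.2 hℓ

theorem charP_FF {ℓ : ℕ} [hp : Fact ℓ.Prime] (hℓ : (ℓ : integralClosure ℤ ℂ) ∈ M) :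
    CharP (FF M) ℓ := by
  have : Nontrivial (FF M) := Ideal.Quotient.nontrivial_iff.2 (Ideal.IsMaximal.ne_top inferInstance)
  exact ringChar.of_eq (CharP.ringChar_of_prime_eq_zero hp.out (natCast_eq_zero hℓ))

theorem frob_inj {ℓ : ℕ} [hp : Fact ℓ.Prime] (hℓ : (ℓ : integralClosure ℤ ℂ) ∈ M)
    {a b : FF M} (h : a ^ ℓ = b ^ ℓ) : a = b := by
  have := charP_FF hℓ
  have : IsDomain (FF M) := Ideal.Quotient.isDomain M
  have h1 : (a - b) ^ ℓ = 0 := by
    rw [sub_pow_char, h, sub_self]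
  exact sub_eq_zero.1 (pow_eq_zero_iff hp.out.ne_zero |>.1 h1)

omit [M.IsMaximal] in
theorem red_natCast (n : ℕ) : red M (n : ℂ) = (n : FF M) := by
  induction n with
  | zero => rw [Nat.cast_zero, Nat.cast_zero, red_zero]
  | succ n ih =>
    have h1 : IsIntegral ℤ (n : ℂ) := AI.natCast n
    rw [Nat.cast_succ, Nat.cast_succ, red_add h1 isIntegral_one, ih, red_one]

end field

section conj

variable {G : Type} [Group G] {ℓ : ℕ}

theorem isConj_base {y y' : ZMod ℓ → G} :
    IsConj (Wreath.base y : Gam ℓ G) (Wreath.base y') ↔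
      ∃ a : Cl ℓ, ∀ j, IsConj (y (a⁻¹ • j)) (y' j) := by
  constructor
  · intro h
    obtain ⟨c, hc⟩ := isConj_iff.1 h
    refine ⟨c.s, fun j => isConj_iff.2 ⟨c.f j, ?_⟩⟩
    have h1 := congrArg (fun x : Gam ℓ G => x.f j) hc
    simp only [Wreath.conj_f, Wreath.base_f, Wreath.base_s, inv_one, mul_one, mul_inv_cancel,
      one_smul] at h1
    exact h1
  · rintro ⟨a, ha⟩
    choose g hg using fun j => isConj_iff.1 (ha j)
    refine isConj_iff.2 ⟨⟨g, a⟩, ?_⟩
    apply Wreath.ext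
    · funext j
      rw [Wreath.conj_f]
      simp only [Wreath.base_f, Wreath.base_s, inv_one, mul_one, mul_inv_cancel,
        one_smul]
      exact hg j
    · rw [Wreath.conj_s]
      simp only [Wreath.base_s, mul_one, mul_inv_cancel]

theorem s_of_isConj_base {y : ZMod ℓ → G} {t : Gam ℓ G} (h : IsConj (Wreath.base y) t) :
    t.s = 1 := by
  obtain ⟨c, rfl⟩ := isConj_iff.1 h
  rw [Wreath.conj_s, Wreath.base_s, mul_one, mul_inv_cancel]

open Classical in
/-- the number of shifts which preserve the classes -/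
def NN [NeZero ℓ] (y : ZMod ℓ → G) : ℕ :=
  (Finset.univ.filter fun a : Cl ℓ => ∀ j, IsConj (y (a⁻¹ • j)) (y j)).card

open Classical in
theorem count_shift [NeZero ℓ] (y y' : ZMod ℓ → G) :
    (Finset.univ.filter fun a : Cl ℓ => ∀ j, IsConj (y (a⁻¹ • j)) (y' j)).card =
      if IsConj (Wreath.base y : Gam ℓ G) (Wreath.base y') then NN y else 0 := by
  split_ifs with h
  · obtain ⟨b, hb⟩ := isConj_base.1 h
    unfold NN
    apply Finset.card_bij' (fun a _ => b⁻¹ * a) (fun a _ => b * a)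
    · intro a ha
      rw [Finset.mem_filter] at ha ⊢
      refine ⟨Finset.mem_univ _, fun j => ?_⟩
      have h1 := ha.2 (b • j)
      have h2 := hb (b • j)
      rw [inv_smul_smul] at h2
      have h3 : (b⁻¹ * a)⁻¹ • j = a⁻¹ • b • j := by
        rw [mul_inv_rev, inv_inv, mul_smul]
      rw [h3]
      exact h1.trans h2.symm
    · intro a ha
      rw [Finset.mem_filter] at ha ⊢
      refine ⟨Finset.mem_univ _, fun j => ?_⟩
      have h1 := ha.2 (b⁻¹ • j)
      have h3 : (b * a)⁻¹ • j = a⁻¹ • b⁻¹ • j := by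
        rw [mul_inv_rev, mul_smul]
      rw [h3]
      exact h1.trans (hb j)
    · intro a _
      exact mul_inv_cancel_left b a
    · intro a _
      exact inv_mul_cancel_left b a
  · rw [Finset.card_eq_zero, Finset.filter_eq_empty_iff]
    intro a _ ha
    exact h (isConj_base.2 ⟨a, ha⟩)

open Classical in
theorem count_shift' [NeZero ℓ] (y y' : ZMod ℓ → G)
    (inst : DecidablePred fun a : Cl ℓ => ∀ j, IsConj (y (a⁻¹ • j)) (y' j)) :
    (@Finset.filter _ (fun a : Cl ℓ => ∀ j, IsConj (y (a⁻¹ • j)) (y' j)) inst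
      Finset.univ).card =
      if IsConj (Wreath.base y : Gam ℓ G) (Wreath.base y') then NN y else 0 := by
  rw [← count_shift y y']
  congr

end conj

section shift

variable {G : Type} [Group G] [Finite G] {ℓ : ℕ} [NeZero ℓ]

theorem eta_one {v : Finset (ZMod ℓ → Subgroup G)} {α : ZMod ℓ → G → ℂ}
    (hα : IsChars v α) (lam : Cl ℓ → ℂ) : eta v α lam 1 = (∏ j, α j 1) * lam 1 := by
  have hX := Pool.Agent.Helper79_WRA.H33.isExt_ext (K := Cl ℓ) hα
  have h1 := hX.base 1
  unfold eta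
  rw [Wreath.one_s]
  congr 1

theorem eta_base {v : Finset (ZMod ℓ → Subgroup G)} {α : ZMod ℓ → G → ℂ}
    (hα : IsChars v α) (lam : Cl ℓ → ℂ) (y : ZMod ℓ → G) :
    eta v α lam (Wreath.base y) = (∏ j, α j (y j)) * lam 1 := by
  have hX := Pool.Agent.Helper79_WRA.H33.isExt_ext (K := Cl ℓ) hα
  have h1 := hX.base y
  unfold eta
  rw [Wreath.base_s, h1]

/-- sums of functions supported on the base group -/
theorem sum_base (f : Gam ℓ G → ℂ) (hf : ∀ t, t.s ≠ 1 → f t = 0) :
    ∑ᶠ t, f t = ∑ᶠ y : ZMod ℓ → G, f (Wreath.base y) := by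
  classical
  have := Fintype.ofFinite G
  have := Fintype.ofFinite (Gam ℓ G)
  rw [finsum_eq_sum_of_fintype, finsum_eq_sum_of_fintype]
  symm
  apply Finset.sum_of_injOn (fun y => (Wreath.base y : Gam ℓ G))
  · exact Wreath.base_injective.injOn
  · intro y _
    exact Finset.mem_coe.2 (Finset.mem_univ _)
  · intro t _ ht
    apply hf
    intro hs
    apply ht
    obtain ⟨y, hy⟩ := Wreath.mem_base_range.2 hs
    exact ⟨y, Finset.mem_coe.2 (Finset.mem_univ _), hy⟩
  · intro y _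
    rfl

theorem shift_sum {v : Finset (ZMod ℓ → Subgroup G)} {α : ZMod ℓ → G → ℂ}
    (hα : IsChars v α) (lam : Cl ℓ → ℂ) (hlam : lam 1 ≠ 0) (y : ZMod ℓ → G) :
    ∑ a : Cl ℓ, ∏ j, omega (MonoidHom.id G) (α j) (y (a⁻¹ • j)) =
      (NN y : ℂ) * val (clas (MonoidHom.id (Gam ℓ G)) (Wreath.base y)) (eta v α lam) := by
  classical
  have := Fintype.ofFinite G
  have h1 : ∀ a : Cl ℓ, ∏ j, omega (MonoidHom.id G) (α j) (y (a⁻¹ • j)) =
      ∑ y' : ZMod ℓ → G, (if ∀ j, IsConj (y (a⁻¹ • j)) (y' j) then (∏ j, α j (y' j)) else 0) /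
        ∏ j, α j 1 := by
    intro a
    have e1 : ∀ j, omega (MonoidHom.id G) (α j) (y (a⁻¹ • j)) =
        (∑ x : G, if IsConj (y (a⁻¹ • j)) x then α j x else 0) / α j 1 := fun j =>
      omega_eq (MonoidHom.id G) (α j) _
    rw [Finset.prod_congr rfl fun j _ => e1 j, Finset.prod_div_distrib, Finset.prod_univ_sum,
      Fintype.piFinset_univ, ← Finset.sum_div]
    congr 1
    refine Finset.sum_congr rfl fun y' _ => ?_
    rw [Finset.prod_ite_zero]
    simp only [Finset.mem_univ, true_imp_iff]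
  rw [Finset.sum_congr rfl fun a _ => h1 a, Finset.sum_comm]
  have h2 : ∀ y' : ZMod ℓ → G, ∑ a : Cl ℓ,
      (if ∀ j, IsConj (y (a⁻¹ • j)) (y' j) then (∏ j, α j (y' j)) else 0) / ∏ j, α j 1 =
      (NN y : ℂ) * ((if IsConj (Wreath.base y : Gam ℓ G) (Wreath.base y') then (1 : ℂ) else 0) *
        (∏ j, α j (y' j)) / ∏ j, α j 1) := by
    intro y'
    rw [← Finset.sum_div, ← Finset.sum_filter, Finset.sum_const, count_shift' y y' _]
    split_ifs
    · rw [nsmul_eq_mul, one_mul, mul_div_assoc]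
    · rw [zero_smul, zero_mul, zero_div, mul_zero]
  rw [Finset.sum_congr rfl fun y' _ => h2 y', ← Finset.mul_sum]
  congr 1
  unfold val
  rw [sum_base]
  · rw [finsum_eq_sum_of_fintype, eta_one hα, Finset.sum_div]
    refine Finset.sum_congr rfl fun y' _ => ?_
    rw [eta_base hα, ← mul_assoc, mul_div_mul_right _ _ hlam]
    rfl
  · intro t ht
    unfold clas
    rw [if_neg, zero_mul]
    intro h
    exact ht (s_of_isConj_base h)

end shift

section indep

variable {M : Ideal (integralClosure ℤ ℂ)} [M.IsMaximal] {G : Type} [Group G] [Finite G]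

/-- dual functionals of the labels -/
theorem dual {β₀ : G → FF M} (hβ₀ : β₀ ∈ Labs M G) :
    ∃ c : G → FF M, (∑ᶠ g, c g * β₀ g = 1) ∧
      ∀ β ∈ Labs M G, β ≠ β₀ → ∑ᶠ g, c g * β g = 0 := by
  classical
  let _ : Field (FF M) := Ideal.Quotient.field M
  have := Fintype.ofFinite G
  have hfin : (Labs M G).Finite := by
    have h1 : Labs M G = (fun χ => labF M χ) '' Irr G := by
      ext β
      constructor
      · rintro ⟨χ, hχ, rfl⟩
        exact ⟨χ, hχ, rfl⟩
      · rintro ⟨χ, hχ, rfl⟩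
        exact ⟨χ, hχ, rfl⟩
    rw [h1]
    exact irr_finite'.image _
  have : Finite (Labs M G) := hfin
  have := Fintype.ofFinite (Labs M G)
  have hli : LinearIndependent (FF M) (fun β : Labs M G => (β : G → FF M)) := by
    rw [Fintype.linearIndependent_iff]
    intro c hc β
    have h1 := Pool.Agent.Helper65_CC.ind M G
      (fun β => if h : β ∈ Labs M G then c ⟨β, h⟩ else 0) (by
        intro g
        rw [← finsum_set_coe_eq_finsum_mem (f := fun β : G → FF M =>
          (if h : β ∈ Labs M G then c ⟨β, h⟩ else 0) * β g), finsum_eq_sum_of_fintype]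
        have h2 := congrFun hc g
        rw [Finset.sum_apply, Pi.zero_apply] at h2
        rw [← h2]
        refine Finset.sum_congr rfl fun β _ => ?_
        rw [dif_pos β.2, Pi.smul_apply, smul_eq_mul]) β β.2
    rw [dif_pos β.2] at h1
    exact h1
  obtain ⟨f, hf⟩ := LinearMap.exists_extend ((Module.Basis.span hli).coord ⟨β₀, hβ₀⟩)
  have hval : ∀ β : Labs M G, f (β : G → FF M) = if β = ⟨β₀, hβ₀⟩ then 1 else 0 := by
    intro β
    have h1 : f ((Module.Basis.span hli β : _) : G → FF M) =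
        (Module.Basis.span hli).coord ⟨β₀, hβ₀⟩ (Module.Basis.span hli β) :=
      LinearMap.congr_fun hf (Module.Basis.span hli β)
    have h2 : ((Module.Basis.span hli β : _) : G → FF M) = (β : G → FF M) :=
      congrArg Subtype.val (Module.Basis.span_apply hli β)
    rw [h2, Module.Basis.coord_apply, Module.Basis.repr_self, Finsupp.single_apply] at h1
    exact h1
  have hsum : ∀ β : G → FF M, ∑ᶠ g, f (fun j => if g = j then 1 else 0) * β g = f β := by
    intro β
    rw [LinearMap.pi_apply_eq_sum_univ f β, finsum_eq_sum_of_fintype]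
    exact Finset.sum_congr rfl fun g _ => by rw [smul_eq_mul, mul_comm]
  refine ⟨fun g => f (fun j => if g = j then 1 else 0), ?_, ?_⟩
  · rw [hsum, hval ⟨β₀, hβ₀⟩, if_pos rfl]
  · intro β hβ hne
    rw [hsum, hval ⟨β, hβ⟩, if_neg]
    intro h
    exact hne (congrArg Subtype.val h)

theorem shift_const {ℓ : ℕ} [hp : Fact ℓ.Prime] (β : ZMod ℓ → G → FF M)
    (hβ : ∀ j, β j ∈ Labs M G)
    (h : ∀ y : ZMod ℓ → G, ∑ a : Cl ℓ, ∏ j, β j (y (a⁻¹ • j)) = 0) : ∀ j, β j = β 0 := by
  classical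
  have := Fintype.ofFinite G
  have hnt : Nontrivial (FF M) :=
    Ideal.Quotient.nontrivial_iff.2 (Ideal.IsMaximal.ne_top inferInstance)
  choose c hc1 hc0 using fun j => dual (hβ j)
  simp only [finsum_eq_sum_of_fintype] at hc1 hc0
  have key : ∑ y : ZMod ℓ → G, (∏ i, c i (y i)) * ∑ a : Cl ℓ, ∏ j, β j (y (a⁻¹ • j)) = 0 :=
    Finset.sum_eq_zero fun y _ => by rw [h y, mul_zero]
  have h1 : ∀ (y : ZMod ℓ → G) (a : Cl ℓ), ∏ j, β j (y (a⁻¹ • j)) =
      ∏ i, β (a • i) (y i) := by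
    intro y a
    rw [← Equiv.prod_comp (MulAction.toPerm a)]
    refine Finset.prod_congr rfl fun i _ => ?_
    rw [MulAction.toPerm_apply, inv_smul_smul]
  have h2 : ∑ a : Cl ℓ, ∏ i, ∑ g : G, c i g * β (a • i) g = 0 := by
    rw [← key]
    have h3 : ∀ y : ZMod ℓ → G, (∏ i, c i (y i)) * ∑ a : Cl ℓ, ∏ j, β j (y (a⁻¹ • j)) =
        ∑ a : Cl ℓ, ∏ i, c i (y i) * β (a • i) (y i) := by
      intro y
      rw [Finset.mul_sum]
      refine Finset.sum_congr rfl fun a _ => ?_
      rw [h1, Finset.prod_mul_distrib]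
    rw [Finset.sum_congr rfl fun y _ => h3 y, Finset.sum_comm]
    refine Finset.sum_congr rfl fun a _ => ?_
    rw [Finset.prod_univ_sum, Fintype.piFinset_univ]
  have h4 : ∀ (a : Cl ℓ) (i : ZMod ℓ), ∑ g : G, c i g * β (a • i) g =
      if β (a • i) = β i then 1 else 0 := by
    intro a i
    split_ifs with h5
    · rw [h5]; exact hc1 i
    · exact hc0 i _ (hβ _) h5
  have h5 : ((Finset.univ.filter fun a : Cl ℓ => ∀ i, β (a • i) = β i).card : FF M) = 0 := by
    rw [← h2, Finset.card_filter, Nat.cast_sum]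
    refine Finset.sum_congr rfl fun a _ => ?_
    rw [Finset.prod_congr rfl fun i _ => h4 a i, Finset.prod_ite_zero]
    simp only [Finset.mem_univ, true_imp_iff, Finset.prod_const_one]
    split_ifs
    · exact Nat.cast_one
    · exact Nat.cast_zero
  by_cases hall : ∀ (a : Cl ℓ) (i : ZMod ℓ), β (a • i) = β i
  · intro j
    have h6 := hall (Multiplicative.ofAdd j) 0
    rw [cl_smul, toAdd_ofAdd, add_zero] at h6
    exact h6
  · exfalso
    have h6 : (Finset.univ.filter fun a : Cl ℓ => ∀ i, β (a • i) = β i) = {1} := by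
      ext b
      rw [Finset.mem_filter, Finset.mem_singleton]
      constructor
      · rintro ⟨-, hb⟩
        by_contra hne
        apply hall
        intro a i
        have hk : Multiplicative.toAdd b ≠ 0 := fun h0 =>
          hne (Multiplicative.toAdd.injective h0)
        have h7 : ∀ (m : ℕ) (i : ZMod ℓ), β (m * Multiplicative.toAdd b + i) = β i := by
          intro m
          induction m with
          | zero => intro i; rw [Nat.cast_zero, zero_mul, zero_add]
          | succ m ih =>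
            intro i
            have h8 : ((m + 1 : ℕ) : ZMod ℓ) * Multiplicative.toAdd b + i =
              Multiplicative.toAdd b + (m * Multiplicative.toAdd b + i) := by
              rw [Nat.cast_succ]; ring
            rw [h8, ← cl_smul, hb, ih]
        have h9 := h7 (Multiplicative.toAdd a / Multiplicative.toAdd b).val i
        rw [ZMod.natCast_zmod_val, div_mul_cancel₀ _ hk] at h9
        rw [cl_smul]
        exact h9
      · rintro rfl
        exact ⟨Finset.mem_univ _, fun i => by rw [one_smul]⟩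
    rw [h6, Finset.card_singleton, Nat.cast_one] at h5
    exact one_ne_zero h5

end indep

section main

theorem clas_class {Γ : Type} [Group Γ] (z x y : Γ) :
    clas (MonoidHom.id Γ) z (y * x * y⁻¹) = clas (MonoidHom.id Γ) z x := by
  have h0 : IsConj x (y * x * y⁻¹) := isConj_iff.2 ⟨y, rfl⟩
  have : IsConj z (MonoidHom.id Γ (y * x * y⁻¹)) ↔ IsConj z (MonoidHom.id Γ x) :=
    ⟨fun h => h.trans h0.symm, fun h => h.trans h0⟩
  unfold clas
  by_cases h : IsConj z (MonoidHom.id Γ x)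
  · rw [if_pos h, if_pos (this.2 h)]
  · rw [if_neg h, if_neg (fun h' => h (this.1 h'))]

theorem clas_integral {Γ : Type} [Group Γ] (z x : Γ) :
    IsIntegral ℤ (clas (MonoidHom.id Γ) z x) := by
  unfold clas
  split_ifs
  · exact isIntegral_one
  · exact isIntegral_zero

theorem omega_val {Γ : Type} [Group Γ] [Finite Γ] (χ : Γ → ℂ) (z : Γ) :
    omega (MonoidHom.id Γ) χ z = val (clas (MonoidHom.id Γ) z) χ := by
  classical
  have := Fintype.ofFinite Γ
  rw [omega_eq, val_eq]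
  congr 1
  refine Finset.sum_congr rfl fun x _ => ?_
  unfold clas
  by_cases h : IsConj z (MonoidHom.id Γ x)
  · rw [if_pos h, if_pos h, one_mul]
  · rw [if_neg h, if_neg h, zero_mul]

variable {G : Type} [Group G] [Finite G] {ℓ : ℕ} [hp : Fact ℓ.Prime]

omit [Finite G] in
theorem NN_const (g : G) : NN (ℓ := ℓ) (fun _ => g) = ℓ := by
  classical
  unfold NN
  rw [Finset.filter_true_of_mem (fun a _ j => IsConj.refl g), Finset.card_univ,
    Fintype.card_multiplicative, ZMod.card]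

theorem good_imp {M : Ideal (integralClosure ℤ ℂ)} [M.IsMaximal]
    (hℓ : (ℓ : integralClosure ℤ ℂ) ∈ M) {χ : G → ℂ} (hχ : χ ∈ Irr G) {χ' : Gam ℓ G → ℂ}
    (hχ' : Over ℓ χ χ') {v : Finset (ZMod ℓ → Subgroup G)} {α : ZMod ℓ → G → ℂ}
    (hα : IsChars v α) (hlab : ∀ j, labF M (α j) ∈ Labs M G) {lam : Cl ℓ → ℂ}
    (hlam : lam 1 ≠ 0)
    (hgood : Good M (clas (MonoidHom.id (Gam ℓ G))) (fun g => omega (MonoidHom.id _) χ' g)
      (eta v α lam)) : ∀ j, labF M (α j) = labF M χ := by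
  classical
  have hc : IsChars (triv G (ZMod ℓ)) (fun _ : ZMod ℓ => χ) := isChars_triv.2 fun _ => hχ
  have hov : ∀ z, omega (MonoidHom.id (Gam ℓ G)) χ' z = val (clas (MonoidHom.id (Gam ℓ G)) z)
      (et (fun _ => χ) (fun _ => (1 : ℂ))) := by
    intro z
    rw [omega_val, hχ'.2 _ (clas_class z)]
  have hint : ∀ j g, IsIntegral ℤ (omega (MonoidHom.id G) (α j) g) := fun j g =>
    omega_IrrS_integral (hα j) g
  have hintχ : ∀ g, IsIntegral ℤ (omega (MonoidHom.id G) χ g) := fun g =>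
    omega_integral _ hχ g
  have hℓ0 : (ℓ : ℂ) ≠ 0 := by exact_mod_cast hp.out.ne_zero
  -- the sums over the shifts vanish
  have E1 : ∀ y : ZMod ℓ → G, ∑ a : Cl ℓ, ∏ j, labF M (α j) (y (a⁻¹ • j)) = 0 := by
    intro y
    have h1 := shift_sum hα lam hlam y
    have h2 := shift_sum hc (fun _ : Cl ℓ => (1 : ℂ)) one_ne_zero y
    have h3 : Cong M (∑ a : Cl ℓ, ∏ j, omega (MonoidHom.id G) (α j) (y (a⁻¹ • j)))
        (∑ a : Cl ℓ, ∏ j : ZMod ℓ, omega (MonoidHom.id G) χ (y (a⁻¹ • j))) := by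
      rw [h1, h2]
      refine Cong.mul_left ?_ (AI.natCast _)
      have h4 : Cong M _ (omega (MonoidHom.id (Gam ℓ G)) χ' (Wreath.base y)) :=
        hgood (Wreath.base y)
      rw [hov] at h4
      exact h4
    have h5 : ∀ a : Cl ℓ, ∏ j : ZMod ℓ, omega (MonoidHom.id G) χ (y (a⁻¹ • j)) =
        ∏ j : ZMod ℓ, omega (MonoidHom.id G) χ (y j) := by
      intro a
      exact Equiv.prod_comp (MulAction.toPerm a⁻¹) (fun j => omega (MonoidHom.id G) χ (y j))
    rw [Finset.sum_congr rfl fun a _ => h5 a, Finset.sum_const, Finset.card_univ,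
      Fintype.card_multiplicative, ZMod.card, nsmul_eq_mul] at h3
    have hI1 : IsIntegral ℤ (∑ a : Cl ℓ, ∏ j, omega (MonoidHom.id G) (α j) (y (a⁻¹ • j))) :=
      IsIntegral.sum _ fun a _ => IsIntegral.prod _ fun j _ => hint j _
    have hI2 : IsIntegral ℤ (∏ j : ZMod ℓ, omega (MonoidHom.id G) χ (y j)) :=
      IsIntegral.prod _ fun j _ => hintχ _
    have h6 := (red_eq_iff hI1 ((AI.natCast ℓ).mul hI2)).2 h3
    rw [red_sum _ _ fun a _ => IsIntegral.prod _ fun j _ => hint j _,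
      red_mul (AI.natCast ℓ) hI2, red_natCast, natCast_eq_zero hℓ, zero_mul] at h6
    rw [← h6]
    refine Finset.sum_congr rfl fun a _ => ?_
    rw [red_prod _ _ fun j _ => hint j _]
    rfl
  have E2 : ∀ g : G, ∏ j, labF M (α j) g = labF M χ g ^ ℓ := by
    intro g
    have h1 := shift_sum hα lam hlam (fun _ => g)
    have h2 := shift_sum hc (fun _ : Cl ℓ => (1 : ℂ)) one_ne_zero (fun _ => g)
    rw [NN_const, Finset.sum_const, Finset.card_univ, Fintype.card_multiplicative, ZMod.card,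
      nsmul_eq_mul] at h1 h2
    have h3 := mul_left_cancel₀ hℓ0 h1
    have h4 := mul_left_cancel₀ hℓ0 h2
    have h5 : Cong M _ (omega (MonoidHom.id (Gam ℓ G)) χ' (Wreath.base (fun _ => g))) :=
      hgood (Wreath.base (fun _ => g))
    rw [hov] at h5
    have h5 : Cong M (val (clas (MonoidHom.id (Gam ℓ G)) (Wreath.base (fun _ => g)))
      (eta v α lam)) (val (clas (MonoidHom.id (Gam ℓ G)) (Wreath.base (fun _ => g)))
      (et (fun _ => χ) (fun _ => (1 : ℂ)))) := h5
    rw [← h3] at h5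
    have h5 : Cong M (∏ j, omega (MonoidHom.id G) (α j) g) _ := h5
    have h6 : val (clas (MonoidHom.id (Gam ℓ G)) (Wreath.base (fun _ => g)))
      (et (fun _ => χ) (fun _ => (1 : ℂ))) = ∏ _j : ZMod ℓ, omega (MonoidHom.id G) χ g := h4.symm
    rw [h6] at h5
    have h7 := (red_eq_iff (IsIntegral.prod _ fun j _ => hint j g)
      (IsIntegral.prod _ fun j _ => hintχ g)).2 h5
    rw [red_prod _ _ fun j _ => hint j g, red_prod _ _ fun j _ => hintχ g, Finset.prod_const,
      Finset.card_univ, ZMod.card] at h7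
    exact h7
  have hconst := shift_const (fun j => labF M (α j)) hlab E1
  have h0 : labF M (α 0) = labF M χ := by
    funext g
    apply frob_inj hℓ
    rw [← E2 g, Finset.prod_congr rfl fun j _ => congrFun (hconst j) g, Finset.prod_const,
      Finset.card_univ, ZMod.card]
  intro j
  rw [← h0]
  exact hconst j

/-- the values for the trivial chain and the constant family, up to the inner sums outside of
the base group -/
theorem val_et_cong {M : Ideal (integralClosure ℤ ℂ)} [M.IsMaximal] {χ : G → ℂ} (hχ : χ ∈ Irr G)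
    (Φ : Gam ℓ G → ℂ)
    (hS : ∀ h : Cl ℓ, h ≠ 1 → Cong M ((∑ᶠ w : ZMod ℓ → G, Φ ⟨w, h⟩ *
      ex (Cl ℓ) (fun _ => χ) ⟨w, h⟩) / ∏ _j : ZMod ℓ, χ 1) 0)
    (lam : Cl ℓ → ℂ) (h0 : lam 1 ≠ 0) (hlam : ∀ h, IsIntegral ℤ (lam h / lam 1)) :
    Cong M (val Φ (et (fun _ => χ) lam)) ((∑ᶠ w : ZMod ℓ → G, Φ ⟨w, 1⟩ *
      ex (Cl ℓ) (fun _ => χ) ⟨w, 1⟩) / ∏ _j : ZMod ℓ, χ 1) := by
  classical
  have := Fintype.ofFinite G
  have := Fintype.ofFinite (Gam ℓ G)
  have hc : IsChars (triv G (ZMod ℓ)) (fun _ : ZMod ℓ => χ) := isChars_triv.2 fun _ => hχ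
  have h1 : val Φ (et (fun _ => χ) lam) = ∑ h : Cl ℓ, (lam h / lam 1) *
      ((∑ᶠ w : ZMod ℓ → G, Φ ⟨w, h⟩ * ex (Cl ℓ) (fun _ => χ) ⟨w, h⟩) /
        ∏ _j : ZMod ℓ, χ 1) := by
    have he1 : et (fun _ => χ) lam 1 = (∏ _j : ZMod ℓ, χ 1) * lam 1 := eta_one hc lam
    rw [val_eq, he1, ← Equiv.sum_comp (Wreath.equivProd G (ZMod ℓ) (Cl ℓ)).symm,
      Fintype.sum_prod_type_right, Finset.sum_div]
    refine Finset.sum_congr rfl fun h _ => ?_
    rw [finsum_eq_sum_of_fintype, div_mul_div_comm, Finset.mul_sum, mul_comm (lam 1)]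
    congr 1
    refine Finset.sum_congr rfl fun w _ => ?_
    change Φ ⟨w, h⟩ * (ex (Cl ℓ) (fun _ => χ) ⟨w, h⟩ * lam h) = _
    ring
  have h2 : (∑ᶠ w : ZMod ℓ → G, Φ ⟨w, 1⟩ * ex (Cl ℓ) (fun _ => χ) ⟨w, 1⟩) /
      ∏ _j : ZMod ℓ, χ 1 = ∑ h : Cl ℓ, if h = 1 then (∑ᶠ w : ZMod ℓ → G, Φ ⟨w, h⟩ *
        ex (Cl ℓ) (fun _ => χ) ⟨w, h⟩) / ∏ _j : ZMod ℓ, χ 1 else 0 := by
    rw [Finset.sum_ite_eq' Finset.univ (1 : Cl ℓ), if_pos (Finset.mem_univ _)]
  rw [h1, h2]
  refine Cong.sum _ _ _ fun h _ => ?_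
  by_cases hh : h = 1
  · subst hh
    rw [if_pos rfl, div_self h0, one_mul]
    exact Cong.refl _
  · rw [if_neg hh]
    exact Cong.mul_zero_left (hS h hh) (hlam h)

/-- the values `lam h / lam 1` are algebraic integers -/
theorem lam_integral {U : Subgroup (Cl ℓ)} {lam : Cl ℓ → ℂ} (hlam : lam ∈ IrrS U) (h : Cl ℓ) :
    IsIntegral ℤ (lam h / lam 1) := by
  by_cases hU : h ∈ U
  · have h1 := omega_integral (MonoidHom.id U) hlam.2 ⟨h, hU⟩
    have h2 := omega_comm (Z := U) (fun x : U => lam x) ⟨h, hU⟩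
    have h3 : omega (MonoidHom.id U) (fun x : U => lam x) ⟨h, hU⟩ = lam h / lam 1 := h2
    rw [h3] at h1
    exact h1
  · rw [hlam.1 h hU, zero_div]
    exact isIntegral_zero

/-- GOODA. -/
theorem gooda (hoff : OffStmt) : GoodaStmt := by
  classical
  intro ℓ hp M hM hℓ G _ _ hG χ hχ hLD χ' hχ' v hv α hα lam hlam
  have hlam1 : lam 1 ≠ 0 := IrrS_one_ne hlam
  obtain ⟨hv1, hv2, hv3⟩ := mem_chainsOn.1 hv
  -- the columns
  have hcol : ∀ j, v.image (fun R => R j) ∈ chainsOn (psub ℓ G) ⊥ := by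
    intro j
    rw [mem_chainsOn]
    refine ⟨?_, Finset.mem_image.2 ⟨_, hv2, rfl⟩, ?_⟩
    · intro D hD
      obtain ⟨R, hR, rfl⟩ := Finset.mem_image.1 hD
      exact mem_boxes.1 (hv1 hR) j
    · intro D hD E hE hne
      obtain ⟨R, hR, rfl⟩ := Finset.mem_image.1 (Finset.mem_coe.1 hD)
      obtain ⟨R', hR', rfl⟩ := Finset.mem_image.1 (Finset.mem_coe.1 hE)
      rcases chain_total hv3 hR hR' with h | h
      · left; exact h j
      · right; exact h j
  have hαcol : ∀ j, α j ∈ IrrS (stab (v.image (fun R => R j))) := by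
    intro j
    rw [← colStab_eq]
    exact hα j
  constructor
  · intro hgood
    have hlabs : ∀ j, labF M (α j) ∈ Labs M G := by
      intro j
      have h1 := hcol j
      have h2 := hαcol j
      generalize v.image (fun R => R j) = e at h1 h2
      obtain ⟨hc1, -, hc3⟩ := mem_chainsOn.1 h1
      obtain ⟨χ₁, h3, h4⟩ := Pool.Agent.Helper79_WRA.H13.label Pool.Agent.Helper79_WRA.H44.br
        Pool.Agent.Helper79_WRA.H69.alg ℓ M hℓ G e
        (fun D hD => (mem_psub.1 (hc1 hD)).2) hc3 (α j) h2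
      exact ⟨χ₁, h3, h4⟩
    exact good_imp hℓ hχ hχ' hα hlabs hlam1 hgood
  · intro hlab z
    have hc : IsChars (triv G (ZMod ℓ)) (fun _ : ZMod ℓ => χ) := isChars_triv.2 fun _ => hχ
    have htop : topSt (Cl ℓ) v α ≤ topSt (Cl ℓ) (triv G (ZMod ℓ)) (fun _ : ZMod ℓ => χ) := by
      intro h _
      exact (mem_LL (L := Cl ℓ) (β := fun _ : ZMod ℓ => χ) fun _ => hχ).2 fun _ => rfl
    obtain ⟨p1, p2, -, -⟩ := Pool.Agent.Helper79_WRA.H83.pos ℓ M hℓ G hG
    have hdat : ∀ j, dat M v α j = dat M (triv G (ZMod ℓ)) (fun _ : ZMod ℓ => χ) j := by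
      intro j
      unfold dat
      rw [hlab j, colStab_eq, p2 _ (hcol j) (α j) (hαcol j) χ hχ hLD (hlab j), colStab_triv,
        Subgroup.card_top, (p1 χ hχ).1 hLD]
    have h1 := Pool.Agent.Helper79_WRA.H13.formStmt Pool.Agent.Helper79_WRA.H33.ext_ G (ZMod ℓ)
      (Cl ℓ) M v (triv G (ZMod ℓ)) α (fun _ : ZMod ℓ => χ) (topSt (Cl ℓ) v α) lam
      (clas (MonoidHom.id (Gam ℓ G)) z) hα hc le_rfl htop hlam hdat (clas_class z)
      (clas_integral z)
    have hS := fun h hh => hoff ℓ M hℓ G hG χ hχ hLD h hh (clas (MonoidHom.id (Gam ℓ G)) z)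
      (clas_class z) (clas_integral z)
    have h2 := val_et_cong hχ (clas (MonoidHom.id (Gam ℓ G)) z) hS lam hlam1
      (lam_integral hlam)
    have h3 := val_et_cong hχ (clas (MonoidHom.id (Gam ℓ G)) z) hS (fun _ => (1 : ℂ))
      one_ne_zero (fun _ => by rw [div_one]; exact isIntegral_one)
    have h4 : omega (MonoidHom.id (Gam ℓ G)) χ' z = val (clas (MonoidHom.id (Gam ℓ G)) z)
        (et (fun _ => χ) (fun _ => (1 : ℂ))) := by
      rw [omega_val, hχ'.2 _ (clas_class z)]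
    change Cong M (val (clas (MonoidHom.id (Gam ℓ G)) z) (eta v α lam))
      (omega (MonoidHom.id (Gam ℓ G)) χ' z)
    rw [h4]
    exact (h1.trans h2).trans h3.symm

end main

end Pool.Agent.Helper33_CC
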